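import Pool.Agent.R291.PoorFilter

/-!
MP_d359f0_an.  A negative answer to Q1 in ZFC: there is a poor free filter on `ℕ` which is not
generated by a statistical measure.
-/

namespace Pool.Agent.Results.MP_d359f0_an.PoorNotGenerated

open Pool.Agent.R291

/-- There is a free filter on `ℕ` which is poor but is not of the form `{A : μ A = 1}` for any
statistical measure `μ`. -/
theorem result : ∃ F : Filter ℕ, IsFree F ∧ IsPoor F ∧ ¬ IsGenerated F :=
  exists_poor_not_generated

end Pool.Agent.Results.MP_d359f0_an.PoorNotGenerated
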